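import Pool.Agent.Lib.MP_acafa7_al.MS.Iface3
import Pool.Agent.Lib.MP_acafa7_al.MS.H62.Om
import Pool.Agent.Lib.MP_acafa7_al.MS.H37.QC

/-! Module Thm2 (10.2): centralizers of elements of infinite order. -/

set_option linter.all false

namespace MSG.H32

open Classical

theorem dist_lt_len {V : Type} {G : SimpleGraph V} (l : List V) : ∀ x y, IsW G x y l →
    ∃ p : G.Walk x y, p.length + 1 = l.length := by
  induction l with
  | nil => intro x y h; exact absurd rfl (H62.wNeNil h)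
  | cons a l ih =>
    intro x y h
    have hx : a = x := by simpa using h.first
    subst hx
    cases l with
    | nil =>
      have hy : a = y := by simpa using h.last
      subst hy
      exact ⟨SimpleGraph.Walk.nil, rfl⟩
    | cons b l =>
      have hc := h.chain
      rw [List.isChain_cons_cons] at hc
      have hw' : IsW G b y (b :: l) := by
        refine ⟨hc.2, rfl, ?_⟩
        have := h.last
        rwa [List.getLast?_cons_cons] at this
      obtain ⟨p, hp⟩ := ih b y hw'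
      exact ⟨SimpleGraph.Walk.cons hc.1 p, by
        rw [SimpleGraph.Walk.length_cons, hp]; simp⟩

section

variable {V : Type} {X : Cx V} {Γ : Type} [Group Γ] [MulAction Γ V] {a : Γ} {K' : ℕ} {Ω : Set V}

/-- the centralizer acts on `Ω` -/
@[reducible] def act (h : IsOm X a K' Ω) (H : Subgroup Γ) (hc : ∀ x ∈ H, x * a = a * x) :
    MulAction H Ω where
  smul x w := ⟨x.1 • w.1, h.inv x.1 (hc x.1 x.2) w.1 w.2⟩
  one_smul w := Subtype.ext (one_smul Γ w.1)
  mul_smul x y w := Subtype.ext (mul_smul x.1 y.1 w.1)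

theorem nr_smul (hG : X.IsGeom Γ) (c : Γ) (x y : V) :
    Nr X.G (c • x) (c • y) ↔ Nr X.G x y := by
  unfold Nr
  rw [hG.adj c x y]
  constructor
  · rintro (h | h)
    · exact Or.inl (MulAction.injective c h)
    · exact Or.inr h
  · rintro (h | h)
    · exact Or.inl (by rw [h])
    · exact Or.inr h

theorem omg_adj (hG : X.IsGeom Γ) (h : IsOm X a K' Ω) (c : Γ) (hc : c * a = a * c) (x y x' y' : Ω)
    (hx : x'.1 = c • x.1) (hy : y'.1 = c • y.1) :
    (OmG X a Ω).Adj x' y' ↔ (OmG X a Ω).Adj x y := by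
  have hcn : ∀ n : ℤ, c * a ^ n = a ^ n * c := fun n => (Commute.zpow_right (show Commute c a from hc) n)
  have h1 : ∀ (n : ℤ) (u v : V), Nr X.G (c • u) (a ^ n • c • v) ↔ Nr X.G u (a ^ n • v) := by
    intro n u v
    rw [← mul_smul, ← hcn n, mul_smul]
    exact nr_smul hG c u _
  show (x' ≠ y' ∧ ((∃ n : ℤ, Nr X.G x'.1 (a ^ n • y'.1)) ∨ ∃ n : ℤ, Nr X.G y'.1 (a ^ n • x'.1))) ↔
    (x ≠ y ∧ ((∃ n : ℤ, Nr X.G x.1 (a ^ n • y.1)) ∨ ∃ n : ℤ, Nr X.G y.1 (a ^ n • x.1)))
  have h2 : x' ≠ y' ↔ x ≠ y := by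
    rw [not_iff_not]
    constructor
    · intro e
      apply Subtype.ext
      have : x'.1 = y'.1 := by rw [e]
      rw [hx, hy] at this
      exact MulAction.injective c this
    · intro e
      apply Subtype.ext
      rw [hx, hy, e]
  rw [h2, hx, hy]
  simp only [h1]

end

theorem thm2 (hOm : OmStatement) (hCFG : CFGStatement) (hQC : QCStatement)
    (hBott : BottStatement) (hLift : LiftStatement) (hProper : ProperStatement) :
    Thm2Statement := by
  intro Γ _ ⟨V, X, _, hMS, hG⟩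
  refine ⟨?_, ?_⟩
  · intro a ha
    obtain ⟨K', Ω, h⟩ := hOm V X Γ hMS hG a ha
    exact hCFG V X Γ hG hMS.conn a K' Ω h
  · intro a ha
    obtain ⟨K', Ω, hΩ⟩ := hOm V X Γ hMS hG a ha
    obtain ⟨Δ, hΔ⟩ := hBott V X Γ hMS hG a K' Ω ha hΩ
    obtain ⟨hconn, hlift, -⟩ := hLift V X Γ hG hMS.conn a K' Ω ha hΩ
    obtain ⟨F, hF, hcof⟩ := hΩ.cof
    -- the finite set
    let D : ℕ := 4 * Δ + 1
    have hE : {g : Γ | ∃ y ∈ F, X.G.dist y (g • y) ≤ D}.Finite := by
      have hball : (⋃ y ∈ (F : Set V), {z | X.G.dist y z ≤ D}).Finite :=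
        F.finite_toSet.biUnion fun y _ => H62.ball_fin hMS.conn hG.locfin y D
      refine ((hProper V X Γ hG).1 F _ F.finite_toSet hball).subset ?_
      rintro g ⟨y, hy, hd⟩
      refine ⟨y, hy, g • y, ?_, Or.inl rfl⟩
      simp only [Set.mem_iUnion]
      exact ⟨y, hy, hd⟩
    refine ⟨{g : Γ | ∃ y ∈ F, X.G.dist y (g • y) ≤ D}.ncard, ?_⟩
    intro H haH hcomm hrel
    -- action of H
    letI := act hΩ H hcomm
    have hadj : ∀ (g : H) (x y : Ω), (OmG X a Ω).Adj (g • x) (g • y) ↔ (OmG X a Ω).Adj x y :=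
      fun g x y => omg_adj hG hΩ g.1 (hcomm g.1 g.2) x y (g • x) (g • y) rfl rfl
    haveI hfin : Finite (H ⧸ (Subgroup.zpowers a).subgroupOf H) := by
      apply Nat.finite_of_card_ne_zero
      exact hrel
    obtain ⟨x₀v, hx₀v⟩ := hΩ.nonempty
    let x₀ : Ω := ⟨x₀v, hx₀v⟩
    obtain ⟨R, hR⟩ : ∃ R : ℕ, ∀ g : H, (OmG X a Ω).dist x₀ (g • x₀) ≤ R := by
      haveI := Fintype.ofFinite (H ⧸ (Subgroup.zpowers a).subgroupOf H)
      refine ⟨(Finset.univ.sup fun q : H ⧸ (Subgroup.zpowers a).subgroupOf H =>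
        (OmG X a Ω).dist x₀ (q.out • x₀)) + 1, ?_⟩
      intro g
      let q : H ⧸ (Subgroup.zpowers a).subgroupOf H := QuotientGroup.mk g
      have hq : (q.out)⁻¹ * g ∈ (Subgroup.zpowers a).subgroupOf H := by
        rw [← QuotientGroup.eq]
        exact QuotientGroup.out_eq' q
      rw [Subgroup.mem_subgroupOf, Subgroup.mem_zpowers_iff] at hq
      obtain ⟨n, hn⟩ := hq
      have hg : g.1 = q.out.1 * a ^ n := by
        rw [hn]; simp
      have h1 := hconn.dist_triangle (u := x₀) (v := q.out • x₀) (w := g • x₀)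
      have h2 : (OmG X a Ω).dist x₀ (q.out • x₀) ≤
          Finset.univ.sup fun q : H ⧸ (Subgroup.zpowers a).subgroupOf H =>
            (OmG X a Ω).dist x₀ (q.out • x₀) :=
        Finset.le_sup (f := fun q : H ⧸ (Subgroup.zpowers a).subgroupOf H =>
            (OmG X a Ω).dist x₀ (q.out • x₀)) (Finset.mem_univ q)
      have h3 : (OmG X a Ω).dist (q.out • x₀) (g • x₀) ≤ 1 := by
        by_cases he : q.out • x₀ = g • x₀
        · rw [he, SimpleGraph.dist_self]; exact Nat.zero_le 1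
        · have : (OmG X a Ω).Adj (q.out • x₀) (g • x₀) := by
            refine ⟨he, Or.inr ⟨n, Or.inl ?_⟩⟩
            show g.1 • x₀.1 = a ^ n • q.out.1 • x₀.1
            rw [hg, ← mul_smul, (Commute.zpow_right (show Commute q.out.1 a from
              hcomm q.out.1 q.out.2) n).eq]
          exact (SimpleGraph.dist_eq_one_iff_adj.2 this).le
      omega
    obtain ⟨c, hc⟩ := hQC Ω (OmG X a Ω) hconn Δ hΔ H hadj x₀ R hR
    obtain ⟨c₀, hc₀, y, hy, hcy⟩ := hcof c.1 c.2
    have hc₀' : c₀⁻¹ * a = a * c₀⁻¹ := (Commute.inv_left (show Commute c₀ a from hc₀)).eq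
    -- each element
    have key : ∀ h : H, ∃ n : ℤ, X.G.dist y ((a ^ n * (c₀⁻¹ * h.1 * c₀)) • y) ≤ D := by
      intro h
      obtain ⟨p, hp⟩ := hconn.exists_walk_length_eq_dist c (h • c)
      obtain ⟨n, l, hl, hlen, -⟩ := hlift c (h • c) p
      obtain ⟨w, hw⟩ := dist_lt_len l _ _ hl
      refine ⟨n, ?_⟩
      have h1 : X.G.dist c.1 (a ^ n • (h • c).1) ≤ D := by
        have := SimpleGraph.dist_le w
        have := hc h
        show _ ≤ 4 * Δ + 1
        omega
      have h2 : y = c₀⁻¹ • c.1 := by rw [← hcy]; simp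
      have h3 : (a ^ n * (c₀⁻¹ * h.1 * c₀)) • y = c₀⁻¹ • (a ^ n • (h • c).1) := by
        show (a ^ n * (c₀⁻¹ * h.1 * c₀)) • y = c₀⁻¹ • (a ^ n • (h.1 • c.1))
        rw [← hcy]
        simp only [← mul_smul]
        congr 1
        rw [← mul_assoc, ← mul_assoc, ← mul_assoc, ← mul_assoc,
          (Commute.zpow_right (show Commute c₀⁻¹ a from hc₀') n).eq]
      rw [h3]
      conv_lhs => rw [h2]
      rw [H62.dist_smul hMS.conn hG.adj]
      exact h1
    choose n hn using key
    -- the injection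
    let E := {g : Γ | ∃ y ∈ F, X.G.dist y (g • y) ≤ D}
    haveI : Finite E := hE
    let f : H ⧸ (Subgroup.zpowers a).subgroupOf H → E := fun q =>
      ⟨a ^ n q.out * (c₀⁻¹ * q.out.1 * c₀), y, hy, hn q.out⟩
    have hf : Function.Injective f := by
      intro q q' hqq
      have h1 : a ^ n q.out * (c₀⁻¹ * q.out.1 * c₀) = a ^ n q'.out * (c₀⁻¹ * q'.out.1 * c₀) :=
        congrArg Subtype.val hqq
      rw [← QuotientGroup.out_eq' q, ← QuotientGroup.out_eq' q', QuotientGroup.eq,
        Subgroup.mem_subgroupOf, Subgroup.mem_zpowers_iff]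
      refine ⟨n q.out - n q'.out, ?_⟩
      show a ^ (n q.out - n q'.out) = q.out.1⁻¹ * q'.out.1
      have e1 : ∀ (m : ℤ) (z : Γ), a ^ m * (c₀⁻¹ * z * c₀) = c₀⁻¹ * (a ^ m * z) * c₀ := by
        intro m z
        rw [← mul_assoc, ← mul_assoc, ← mul_assoc,
          (Commute.zpow_right (show Commute c₀⁻¹ a from hc₀') m).eq]
      rw [e1, e1] at h1
      have h2 : a ^ n q.out * q.out.1 = a ^ n q'.out * q'.out.1 := by
        have := mul_right_cancel h1
        exact mul_left_cancel this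
      have c1 : Commute q.out.1 a := hcomm q.out.1 q.out.2
      have h3 : q'.out.1 = a ^ (n q.out - n q'.out) * q.out.1 := by
        have : q'.out.1 = (a ^ n q'.out)⁻¹ * (a ^ n q'.out * q'.out.1) := by simp
        rw [this, ← h2, ← mul_assoc, ← zpow_neg, ← zpow_add]
        congr 2
        ring
      rw [h3, ← mul_assoc, (Commute.zpow_right c1.inv_left (n q.out - n q'.out)).eq]
      simp [mul_assoc]
    have := Nat.card_le_card_of_injective f hf
    exact this

end MSG.H32
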